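import Pool.Agent.Lib.MP_72e2e6_nt.W2.B.Spec

/-!
# MP_72e2e6_nt, theorem T3, part B: `H² = 0` (`S_Ah`)
-/

set_option autoImplicit false

namespace Pool.Agent.MP72W

private theorem Ah_z2 : ∀ x : ZMod 2, x = 0 ∨ x = 1 := by decide

section

variable {G O : Type} [Group G] [TopologicalSpace G] [CommRing O] [MulSemiringAction G O]

private theorem Ah_add_self (hO : ASMod G O) (x : O) : x + x = 0 := by
  rw [← two_mul, hO.two, zero_mul]

private theorem Ah_o2_zero : o2 O 0 = 0 := if_pos rfl

private theorem Ah_o2_one : o2 O 1 = 1 := if_neg (by decide)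

private theorem Ah_o2_add (hO : ASMod G O) (x y : ZMod 2) : o2 O (x + y) = o2 O x + o2 O y := by
  rcases Ah_z2 x with rfl | rfl <;> rcases Ah_z2 y with rfl | rfl
  · rw [add_zero, Ah_o2_zero, add_zero]
  · rw [zero_add, Ah_o2_zero, zero_add]
  · rw [add_zero, Ah_o2_zero, add_zero]
  · have : (1 : ZMod 2) + 1 = 0 := by decide
    rw [this, Ah_o2_zero, Ah_o2_one, Ah_add_self hO]

private theorem Ah_o2_sq (x : ZMod 2) : o2 O x ^ 2 = o2 O x := by
  rcases Ah_z2 x with rfl | rfl
  · rw [Ah_o2_zero]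
    ring
  · rw [Ah_o2_one]
    ring

private theorem Ah_o2_smul (x : ZMod 2) (g : G) : g • o2 O x = o2 O x := by
  rcases Ah_z2 x with rfl | rfl
  · rw [Ah_o2_zero, smul_zero]
  · rw [Ah_o2_one, smul_one]

private theorem Ah_o2_inj (hO : ASMod G O) {x y : ZMod 2} (h : o2 O x = o2 O y) : x = y := by
  rcases Ah_z2 x with rfl | rfl <;> rcases Ah_z2 y with rfl | rfl
  · rfl
  · rw [Ah_o2_zero, Ah_o2_one] at h
    exact absurd h.symm hO.one
  · rw [Ah_o2_zero, Ah_o2_one] at h
    exact absurd h hO.one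
  · rfl

omit [TopologicalSpace G] in
/-- shift of the summation -/
private theorem Ah_shift {A : Type} [AddCommMonoid A] {U : Subgroup G} [Fintype (G ⧸ U)]
    (F : G → A) (hF : ∀ g, ∀ u ∈ U, F (g * u) = F g) (γ : G) :
    ∑ q : G ⧸ U, F (γ * Quotient.out q) = ∑ q : G ⧸ U, F (Quotient.out q) := by
  have h1 : ∀ q : G ⧸ U, F (γ * Quotient.out q) = F (Quotient.out (γ • q)) := by
    intro q
    have h2 : γ • q = ((γ * Quotient.out q : G) : G ⧸ U) := by
      conv_lhs => rw [← QuotientGroup.out_eq' q]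
      rfl
    obtain ⟨u, hu⟩ := QuotientGroup.mk_out_eq_mul U (γ * Quotient.out q)
    rw [h2, hu]
    exact (hF _ _ u.2).symm
  simp only [h1]
  exact Equiv.sum_comp (MulAction.toPerm γ : Equiv.Perm (G ⧸ U)) fun q => F (Quotient.out q)

end

/-- right invariant functions are locally constant -/
private theorem Ah_loc {G A : Type} [Group G] [TopologicalSpace G] [IsTopologicalGroup G]
    {U : Subgroup G} (hU : IsOpen (U : Set G)) (f : G → A)
    (hf : ∀ g, ∀ u ∈ U, f (g * u) = f g) : IsLocallyConstant f := by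
  rw [IsLocallyConstant.iff_exists_open]
  intro g
  refine ⟨{y | g⁻¹ * y ∈ (U : Set G)}, hU.preimage (continuous_const.mul continuous_id), ?_, ?_⟩
  · show g⁻¹ * g ∈ (U : Set G)
    rw [inv_mul_cancel]
    exact U.one_mem
  · intro y hy
    have h1 := hf g (g⁻¹ * y) hy
    rwa [mul_inv_cancel_left] at h1

theorem tAh : S_Uc → S_Ah := by
  intro hUc G _ _ _ _ O _ _ hO
  classical
  have dbl : ∀ x : O, x + x = 0 := Ah_add_self hO
  constructor
  · intro c hc hcoc
    obtain ⟨U, hUo, hUn, hcU⟩ := hUc.2 G (ZMod 2) c hc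
    obtain ⟨x, hxU, hx1⟩ := hO.tr U hUo hUn
    haveI : Finite (G ⧸ U) := Subgroup.quotient_finite_of_isOpen U hUo
    haveI : Fintype (G ⧸ U) := Fintype.ofFinite _
    rw [finsum_eq_sum_of_fintype] at hx1
    have hXinv : ∀ g, ∀ u ∈ U, (g * u) • x = g • x := by
      intro g u hu
      rw [mul_smul, hxU u hu]
    have htr : ∀ γ : G, ∑ q : G ⧸ U, (γ * Quotient.out q) • x = 1 := by
      intro γ
      rw [Ah_shift (fun g => g • x) hXinv γ, hx1]
    have hC : ∀ g g' : G, ∀ u ∈ U, c (g * u) g' = c g g' := by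
      intro g g' u hu
      have := hcU g g' u hu 1 U.one_mem
      rwa [mul_one] at this
    have hC' : ∀ g g' : G, ∀ u ∈ U, c g (g' * u) = c g g' := by
      intro g g' u hu
      have := hcU g g' 1 U.one_mem u hu
      rwa [mul_one] at this
    let a : G → O := fun γ => ∑ q : G ⧸ U, o2 O (c γ (Quotient.out q)) * (γ * Quotient.out q) • x
    have haU : ∀ g, ∀ u ∈ U, a (g * u) = a g := by
      intro g u hu
      refine Finset.sum_congr rfl fun q _ => ?_
      rw [hC _ _ u hu]
      congr 1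
      have h1 : g * u * Quotient.out q =
          g * Quotient.out q * ((Quotient.out q)⁻¹ * u * Quotient.out q) := by group
      rw [h1]
      refine hXinv _ _ ?_
      have h2 := hUn.conj_mem u hu (Quotient.out q)⁻¹
      rwa [inv_inv] at h2
    have ha2 : ∀ γ δ, a γ = ∑ q : G ⧸ U, o2 O (c γ (δ * Quotient.out q)) *
        (γ * (δ * Quotient.out q)) • x := by
      intro γ δ
      refine (Ah_shift (fun g => o2 O (c γ g) * (γ * g) • x) ?_ δ).symm
      intro g u hu
      show o2 O (c γ (g * u)) * (γ * (g * u)) • x = _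
      rw [hC' _ _ u hu, ← mul_assoc, hXinv _ u hu]
    have hstar : ∀ γ δ, γ • a δ + a (γ * δ) + a γ = o2 O (c γ δ) := by
      intro γ δ
      have e1 : γ • a δ = ∑ q : G ⧸ U, o2 O (c δ (Quotient.out q)) *
          (γ * δ * Quotient.out q) • x := by
        show γ • (∑ q : G ⧸ U, o2 O (c δ (Quotient.out q)) * (δ * Quotient.out q) • x) = _
        rw [Finset.smul_sum]
        refine Finset.sum_congr rfl fun q _ => ?_
        rw [smul_mul', Ah_o2_smul, smul_smul, mul_assoc]
      have e2 : a (γ * δ) = ∑ q : G ⧸ U, o2 O (c (γ * δ) (Quotient.out q)) *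
          (γ * δ * Quotient.out q) • x := rfl
      rw [e1, e2, ha2 γ δ, ← Finset.sum_add_distrib, ← Finset.sum_add_distrib]
      have e3 : ∀ q : G ⧸ U, o2 O (c δ (Quotient.out q)) * (γ * δ * Quotient.out q) • x +
          o2 O (c (γ * δ) (Quotient.out q)) * (γ * δ * Quotient.out q) • x +
          o2 O (c γ (δ * Quotient.out q)) * (γ * (δ * Quotient.out q)) • x =
          o2 O (c γ δ) * (γ * δ * Quotient.out q) • x := by
        intro q
        have h1 := congrArg (o2 O) (hcoc γ δ (Quotient.out q))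
        rw [Ah_o2_add hO, Ah_o2_add hO, Ah_o2_add hO, Ah_o2_zero] at h1
        have h2 := dbl (o2 O (c γ δ))
        rw [← mul_assoc γ δ (Quotient.out q)]
        linear_combination ((γ * δ * Quotient.out q) • x) * h1 -
          ((γ * δ * Quotient.out q) • x) * h2
      simp only [e3]
      rw [← Finset.mul_sum, htr, mul_one]
    let p : G → O := fun γ => a γ ^ 2 + a γ
    have hpU : ∀ g, ∀ u ∈ U, p (g * u) = p g := by
      intro g u hu
      show a (g * u) ^ 2 + a (g * u) = _
      rw [haU g u hu]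
    have hp : ∀ γ δ, γ • p δ = p (γ * δ) + p γ := by
      intro γ δ
      have h1 := hstar γ δ
      have h2 := Ah_o2_sq (O := O) (c γ δ)
      rw [← h1] at h2
      show γ • (a δ ^ 2 + a δ) = a (γ * δ) ^ 2 + a (γ * δ) + (a γ ^ 2 + a γ)
      rw [smul_add, smul_pow']
      have h3 := hO.two
      linear_combination h2 + (γ • a δ + a (γ * δ) + a γ - a (γ * δ) ^ 2 - a γ ^ 2 -
        a (γ * δ) - a γ - γ • a δ * a (γ * δ) - γ • a δ * a γ - a (γ * δ) * a γ +
        a (γ * δ) ^ 2 * 0) * h3 + (0 : O) * h3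
    let m : O := ∑ q : G ⧸ U, p (Quotient.out q) * (Quotient.out q) • x
    have hm : ∀ γ : G, γ • m = m + p γ := by
      intro γ
      have e1 : γ • m = ∑ q : G ⧸ U, (p (γ * Quotient.out q) * (γ * Quotient.out q) • x +
          p γ * (γ * Quotient.out q) • x) := by
        show γ • (∑ q : G ⧸ U, p (Quotient.out q) * (Quotient.out q) • x) = _
        rw [Finset.smul_sum]
        refine Finset.sum_congr rfl fun q _ => ?_
        rw [smul_mul', hp, smul_smul, add_mul]
      rw [e1, Finset.sum_add_distrib, ← Finset.mul_sum, htr, mul_one]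
      congr 1
      refine Ah_shift (fun g => p g * g • x) ?_ γ
      intro g u hu
      show p (g * u) * (g * u) • x = _
      rw [hpU g u hu, hXinv g u hu]
    obtain ⟨θ, hθ⟩ := hO.as m
    let b : G → O := fun γ => a γ + γ • θ + θ
    have hb01 : ∀ γ, b γ = 0 ∨ b γ = 1 := by
      intro γ
      refine hO.dom _ ?_
      have h1 := hm γ
      rw [← hθ, smul_add, smul_pow'] at h1
      have h3 := hO.two
      show (a γ + γ • θ + θ) ^ 2 + (a γ + γ • θ + θ) = 0
      have h4 : p γ = a γ ^ 2 + a γ := rfl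
      rw [h4] at h1
      linear_combination h1 + (a γ * γ • θ + a γ * θ + γ • θ * θ + a γ ^ 2 + a γ + θ ^ 2 + θ) * h3
    obtain ⟨V, hVo, hV⟩ := hO.stab θ
    have hbloc : IsLocallyConstant b := by
      have h1 : IsLocallyConstant a := Ah_loc hUo a haU
      have h2 : IsLocallyConstant fun γ : G => γ • θ := Ah_loc hVo _ (by
        intro g u hu
        show (g * u) • θ = g • θ
        rw [mul_smul, hV u hu])
      exact (h1.add h2).add (IsLocallyConstant.const θ)
    let B : G → ZMod 2 := fun γ => if b γ = 0 then 0 else 1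
    have hB : ∀ γ, o2 O (B γ) = b γ := by
      intro γ
      simp only [B]
      rcases hb01 γ with h | h
      · rw [if_pos h, Ah_o2_zero, h]
      · rw [if_neg (by rw [h]; exact hO.one), Ah_o2_one, h]
    refine ⟨B, hbloc.comp fun y : O => if y = 0 then (0 : ZMod 2) else 1, fun γ δ => ?_⟩
    refine Ah_o2_inj hO ?_
    rw [Ah_o2_add hO, Ah_o2_add hO, hB, hB, hB, ← hstar γ δ]
    have h1 : γ • b δ = b δ := by
      rcases hb01 δ with h | h
      · rw [h, smul_zero]
      · rw [h, smul_one]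
    rw [← h1]
    show γ • a δ + a (γ * δ) + a γ = a γ + γ • θ + θ + γ • (a δ + δ • θ + θ) +
      (a (γ * δ) + (γ * δ) • θ + θ)
    rw [smul_add, smul_add, smul_smul]
    linear_combination (-(γ • θ) - θ - (γ * δ) • θ) * hO.two
  · intro h hh
    obtain ⟨U, hUo, hUn, hhU⟩ := hUc.1 G (ZMod 2) h hh.loc
    obtain ⟨x, hxU, hx1⟩ := hO.tr U hUo hUn
    haveI : Finite (G ⧸ U) := Subgroup.quotient_finite_of_isOpen U hUo
    haveI : Fintype (G ⧸ U) := Fintype.ofFinite _
    rw [finsum_eq_sum_of_fintype] at hx1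
    have hXinv : ∀ g, ∀ u ∈ U, (g * u) • x = g • x := by
      intro g u hu
      rw [mul_smul, hxU u hu]
    have htr : ∀ γ : G, ∑ q : G ⧸ U, (γ * Quotient.out q) • x = 1 := by
      intro γ
      rw [Ah_shift (fun g => g • x) hXinv γ, hx1]
    refine ⟨∑ q : G ⧸ U, o2 O (h (Quotient.out q)) * (Quotient.out q) • x, fun γ => ?_⟩
    rw [Finset.smul_sum]
    have e1 : ∀ q : G ⧸ U, γ • (o2 O (h (Quotient.out q)) * (Quotient.out q) • x) =
        o2 O (h (γ * Quotient.out q)) * (γ * Quotient.out q) • x +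
          o2 O (h γ) * (γ * Quotient.out q) • x := by
      intro q
      rw [smul_mul', Ah_o2_smul, smul_smul, hh.add, Ah_o2_add hO]
      have h1 := dbl (o2 O (h γ))
      linear_combination (-((γ * Quotient.out q) • x)) * h1
    simp only [e1]
    rw [Finset.sum_add_distrib, ← Finset.mul_sum, htr, mul_one]
    congr 1
    refine Ah_shift (fun g => o2 O (h g) * g • x) ?_ γ
    intro g u hu
    show o2 O (h (g * u)) * (g * u) • x = _
    rw [hhU g u hu, hXinv g u hu]

end Pool.Agent.MP72W
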