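import Pool.Agent.Lib.MP_72e2e6_nt.W2.B.Spec

/-!
# MP_72e2e6_nt, theorem T3, B/Has: properties of the Artin-Schreier homomorphism (helper82)
-/

namespace Pool.Agent.MP72W

open IntermediateField

section field

variable {L : Type} [Field L]

private theorem has_root (h2 : (2 : L) = 0) {f x y : L} (hx : x ^ 2 + x = f)
    (hy : y ^ 2 + y = f) : x = y ∨ x = y + 1 := by
  have h : (x - y) * (x - (y + 1)) = 0 := by
    linear_combination hx - hy + (y ^ 2 - x * y - x + y) * h2
  rcases mul_eq_zero.1 h with h | h
  · exact Or.inl (sub_eq_zero.1 h)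
  · exact Or.inr (sub_eq_zero.1 h)

private theorem has_o2_zero : o2 L 0 = 0 := if_pos rfl

private theorem has_o2_one : o2 L 1 = 1 := if_neg (by decide)

private theorem has_o2_add (h2 : (2 : L) = 0) (a b : ZMod 2) : o2 L (a + b) = o2 L a + o2 L b := by
  have key : ∀ x : ZMod 2, x = 0 ∨ x = 1 := by decide
  rcases key a with ha | ha <;> rcases key b with hb | hb <;> subst ha <;> subst hb
  · rw [add_zero, has_o2_zero, add_zero]
  · rw [zero_add, has_o2_zero, zero_add]
  · rw [add_zero, has_o2_zero, add_zero]
  · have h : (1 : ZMod 2) + 1 = 0 := by decide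
    rw [h, has_o2_zero, has_o2_one]
    linear_combination - h2

private theorem has_o2_inj {a b : ZMod 2} (h : o2 L a = o2 L b) : a = b := by
  have key : ∀ x : ZMod 2, x = 0 ∨ x = 1 := by decide
  rcases key a with ha | ha <;> rcases key b with hb | hb <;> subst ha <;> subst hb
  · rfl
  · rw [has_o2_zero, has_o2_one] at h
    exact absurd h zero_ne_one
  · rw [has_o2_zero, has_o2_one] at h
    exact absurd h.symm zero_ne_one
  · rfl

private theorem has_asr {f : L} (h : ∃ θ : L, θ ^ 2 + θ = f) : asr f ^ 2 + asr f = f := by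
  unfold asr
  rw [dif_pos h]
  exact h.choose_spec

end field

section gal

variable {K L : Type} [Field K] [Field L] [Algebra K L]

private theorem has_map_o2 (g : Gal(L/K)) (x : ZMod 2) : g (o2 L x) = o2 L x := by
  unfold o2
  split_ifs
  · exact map_zero g
  · exact map_one g

private theorem has_two [CharP K 2] : (2 : L) = 0 := by
  have h : (2 : K) = 0 := CharP.cast_eq_zero K 2
  have h' : algebraMap K L 2 = algebraMap K L 0 := by rw [h]
  rw [map_zero, map_ofNat] at h'
  exact h'

private theorem has_asr_map (h2 : (2 : L) = 0) {f : K}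
    (h : ∃ θ : L, θ ^ 2 + θ = algebraMap K L f) (g : Gal(L/K)) :
    g (asr (algebraMap K L f)) = asr (algebraMap K L f) + o2 L (hAS K L f g) := by
  have h0 := has_asr h
  by_cases hg : g (asr (algebraMap K L f)) = asr (algebraMap K L f)
  · have : hAS K L f g = 0 := if_pos hg
    rw [this, has_o2_zero, add_zero, hg]
  · have : hAS K L f g = 1 := if_neg hg
    rw [this, has_o2_one]
    have h1 : g (asr (algebraMap K L f)) ^ 2 + g (asr (algebraMap K L f)) =
        algebraMap K L f := by
      rw [← map_pow, ← map_add, h0]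
      exact g.commutes f
    rcases has_root h2 h1 h0 with h3 | h3
    · exact absurd h3 hg
    · exact h3

private theorem has_map (h2 : (2 : L) = 0) {f : K} {θ : L} (hθ : θ ^ 2 + θ = algebraMap K L f)
    (g : Gal(L/K)) : g θ = θ + o2 L (hAS K L f g) := by
  have h : ∃ θ : L, θ ^ 2 + θ = algebraMap K L f := ⟨θ, hθ⟩
  have h1 := has_asr_map h2 h g
  rcases has_root h2 hθ (has_asr h) with h3 | h3
  · rw [h3]
    exact h1
  · rw [h3, map_add, h1, map_one]
    ring

end gal

/-- **Has.** Properties of the Artin-Schreier homomorphism. -/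
theorem tHas : S_Has := by
  intro K L _ _ _ _ _
  have h2 : (2 : L) = 0 := has_two (K := K)
  refine ⟨fun f hf => ⟨?_, ?_⟩, fun f θ hθ g => has_map h2 hθ g, ?_, ?_⟩
  · rw [IsLocallyConstant.iff_exists_open]
    intro g
    refine ⟨{g' | g⁻¹ * g' ∈ MulAction.stabilizer Gal(L/K) (asr (algebraMap K L f))}, ?_, ?_, ?_⟩
    · exact (stabilizer_isOpen_of_isIntegral (K := K) (asr (algebraMap K L f))).preimage
        (continuous_const_mul g⁻¹)
    · show g⁻¹ * g ∈ MulAction.stabilizer Gal(L/K) (asr (algebraMap K L f))
      rw [inv_mul_cancel]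
      exact one_mem _
    · intro g' hg'
      have h3 : (g⁻¹ * g') (asr (algebraMap K L f)) = asr (algebraMap K L f) := hg'
      have h4 : g' (asr (algebraMap K L f)) = g (asr (algebraMap K L f)) := by
        have h5 : g' = g * (g⁻¹ * g') := by group
        conv_lhs => rw [h5]
        rw [AlgEquiv.mul_apply, h3]
      unfold hAS
      rw [h4]
  · intro a b
    apply has_o2_inj (L := L)
    rw [has_o2_add h2]
    have h3 := has_asr_map h2 hf (a * b)
    rw [AlgEquiv.mul_apply, has_asr_map h2 hf b, map_add, has_map_o2, has_asr_map h2 hf a,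
      add_assoc] at h3
    exact (add_left_cancel h3).symm
  · intro f f' hf hf' g
    apply has_o2_inj (L := L)
    rw [has_o2_add h2]
    obtain ⟨θ, hθ⟩ := hf
    obtain ⟨θ', hθ'⟩ := hf'
    have h3 : (θ + θ') ^ 2 + (θ + θ') = algebraMap K L (f + f') := by
      rw [map_add]
      linear_combination hθ + hθ' + θ * θ' * h2
    have h4 := has_map h2 h3 g
    rw [map_add, has_map h2 hθ g, has_map h2 hθ' g] at h4
    linear_combination - h4
  · intro f hf
    constructor
    · intro hg
      have h3 : asr (algebraMap K L f) ∈ (⊥ : IntermediateField K L) := by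
        rw [InfiniteGalois.mem_bot_iff_fixed]
        intro g
        rw [has_asr_map h2 hf g, hg g, has_o2_zero, add_zero]
      rw [IntermediateField.mem_bot] at h3
      obtain ⟨x, hx⟩ := h3
      refine ⟨x, ?_⟩
      apply FaithfulSMul.algebraMap_injective K L
      have h4 := has_asr hf
      rw [← hx] at h4
      rw [map_add, map_pow]
      exact h4
    · rintro ⟨x, hx⟩ g
      have h3 : (algebraMap K L x) ^ 2 + algebraMap K L x = algebraMap K L f := by
        rw [← map_pow, ← map_add, hx]
      have h4 := has_map h2 h3 g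
      rw [g.commutes] at h4
      apply has_o2_inj (L := L)
      rw [has_o2_zero]
      exact (left_eq_add.1 h4)

end Pool.Agent.MP72W
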