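import Pool.Agent.Lib.MP_72e2e6_nt.W2.B.Spec

/-!
# MP_72e2e6_nt, theorem T3, B/Omi: the Galois group of the maximal unramified tower (helper6)
-/

namespace Pool.Agent.MP72W

open IntermediateField

private theorem omi_two {K L : Type} [Field K] [Field L] [Algebra K L] [CharP K 2] :
    (2 : L) = 0 := by
  have h : (2 : K) = 0 := CharP.cast_eq_zero K 2
  have h' : algebraMap K L 2 = algebraMap K L 0 := by rw [h]
  rw [map_zero, map_ofNat] at h'
  exact h'

/-- The trace of the fixed field of an open normal subgroup is the sum of the conjugates. -/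
private theorem omi_trace {K L : Type} [Field K] [Field L] [Algebra K L] [IsGalois K L]
    (U : Subgroup Gal(L/K)) (hU : IsOpen (U : Set Gal(L/K))) (hn : U.Normal) :
    FiniteDimensional K (fixedField U) ∧
    ∀ x : fixedField U, ∑ᶠ q : Gal(L/K) ⧸ U, (Quotient.out q) • (x : L) =
      algebraMap K L (Algebra.trace K (fixedField U) x) := by
  let H : ClosedSubgroup Gal(L/K) := ⟨U, U.isClosed_of_isOpen hU⟩
  have hH : (fixedField U).fixingSubgroup = U := InfiniteGalois.fixingSubgroup_fixedField H
  have hfin : FiniteDimensional K (fixedField U) := by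
    refine (InfiniteGalois.isOpen_iff_finite (fixedField U)).1 ?_
    have : ((fixedField U).fixingSubgroup.carrier : Set Gal(L/K)) = (U : Set Gal(L/K)) := by
      rw [hH]
      rfl
    rw [this]
    exact hU
  have hgal : IsGalois K (fixedField U) := inferInstance
  refine ⟨hfin, fun x => ?_⟩
  have hHn : H.Normal := hn
  let e : Gal(L/K) ⧸ H.1 ≃* Gal(fixedField H.1/K) := InfiniteGalois.normalAutEquivQuotient H
  have h1 : ∑ᶠ q : Gal(L/K) ⧸ U, (Quotient.out q) • (x : L) =
      ∑ᶠ σ : Gal(fixedField U/K), ((σ x : fixedField U) : L) := by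
    refine finsum_eq_of_bijective (e : Gal(L/K) ⧸ U → Gal(fixedField U/K)) e.bijective ?_
    intro q
    have h2 : e q = AlgEquiv.restrictNormalHom (fixedField U) (Quotient.out q) := by
      conv_lhs => rw [← QuotientGroup.out_eq' q]
      rfl
    have h3 : ((e q) x : L) = (Quotient.out q) (x : L) := by
      rw [h2]
      exact AlgEquiv.restrictNormalHom_apply (fixedField U) (Quotient.out q) x
    exact h3.symm
  rw [h1, finsum_eq_sum_of_fintype]
  have h4 := trace_eq_sum_automorphisms (K := K) (L := fixedField U) x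
  have h5 : algebraMap K L (Algebra.trace K (fixedField U) x) =
      ((algebraMap K (fixedField U) (Algebra.trace K (fixedField U) x) : fixedField U) : L) := rfl
  rw [h5, h4]
  exact (map_sum (fixedField U).val _ _).symm

/-- A separably closed field of characteristic two is closed under Artin-Schreier roots. -/
private theorem omi_as {L : Type} [Field L] [IsSepClosed L] (h2 : (2 : L) = 0) (m : L) :
    ∃ θ : L, θ ^ 2 + θ = m := by
  obtain ⟨x, hx⟩ := IsSepClosed.exists_root_C_mul_X_pow_add_C_mul_X_add_C (n := 2) (1 : L) 1 m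
    (by exact_mod_cast h2) le_rfl one_ne_zero
  refine ⟨x, ?_⟩
  linear_combination hx - m * h2

private theorem omi_o2_inj {L : Type} [Field L] {a b : ZMod 2} (h : o2 L a = o2 L b) : a = b := by
  have key : ∀ x : ZMod 2, x = 0 ∨ x = 1 := by decide
  have h0 : o2 L 0 = 0 := if_pos rfl
  have h1 : o2 L 1 = 1 := if_neg (by decide)
  rcases key a with ha | ha <;> rcases key b with hb | hb <;> subst ha <;> subst hb
  · rfl
  · rw [h0, h1] at h
    exact absurd h zero_ne_one
  · rw [h0, h1] at h
    exact absurd h.symm zero_ne_one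
  · rfl

private theorem omi_int {A L : Type} [CommRing A] [Field L] [Algebra A L] (θ : L)
    (h : IsIntegral A (θ ^ 2 + θ)) : IsIntegral A θ := by
  by_cases hA : Nontrivial A
  · obtain ⟨p, hp, hp2⟩ := h
    have hd : (Polynomial.X ^ 2 + Polynomial.X : Polynomial A).natDegree = 2 := by
      compute_degree!
    refine ⟨p.comp (Polynomial.X ^ 2 + Polynomial.X), hp.comp ?_ ?_, ?_⟩
    · rw [Polynomial.Monic, Polynomial.leadingCoeff, hd]
      simp [Polynomial.coeff_X]
    · rw [hd]
      exact two_ne_zero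
    · rw [Polynomial.eval₂_comp, Polynomial.eval₂_add, Polynomial.eval₂_pow, Polynomial.eval₂_X]
      exact hp2
  · exfalso
    rw [not_nontrivial_iff_subsingleton] at hA
    have h0 : (1 : A) = 0 := Subsingleton.elim _ _
    have h1 : algebraMap A L 1 = algebraMap A L 0 := by rw [h0]
    rw [map_one, map_zero] at h1
    exact one_ne_zero h1

private theorem omi_tr {A K F M : Type} [CommRing A] [Field K] [Field F] [Field M] [Algebra A K]
    [Algebra A F] [Algebra A M] [Algebra K F] [Algebra K M] [IsScalarTower A K F]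
    [IsScalarTower A K M] [FiniteDimensional K F] [FiniteDimensional K M] (j : F →ₐ[K] M)
    (y : M) (hy : IsIntegral A y) (ht : Algebra.trace K M y = 1) :
    ∃ x : F, IsIntegral A x ∧ Algebra.trace K F x = 1 := by
  letI := j.toRingHom.toAlgebra
  haveI : IsScalarTower K F M := IsScalarTower.of_algebraMap_eq (fun c => (j.commutes c).symm)
  haveI : IsScalarTower A F M := by
    apply IsScalarTower.of_algebraMap_eq
    intro a
    rw [IsScalarTower.algebraMap_apply A K M, IsScalarTower.algebraMap_apply A K F]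
    exact (j.commutes _).symm
  haveI : FiniteDimensional F M := FiniteDimensional.right K F M
  refine ⟨Algebra.trace F M y, Algebra.isIntegral_trace hy, ?_⟩
  rw [Algebra.trace_trace, ht]

private theorem omi_comm {A K L : Type} [CommRing A] [Field K] [Field L] [Algebra A K]
    [Algebra K L] [Algebra A L] [IsScalarTower A K L] : SMulCommClass Gal(L/K) A L := by
  refine ⟨fun g a x => ?_⟩
  rw [← algebraMap_smul K a x, ← algebraMap_smul K a (g • x)]
  exact map_smul g _ x

private theorem omi_asMod {A K L : Type} [CommRing A] [Field K] [Field L] [Algebra A K]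
    [Algebra K L] [Algebra A L] [IsScalarTower A K L] [CharP K 2] [IsGalois K L]
    [SMulCommClass Gal(L/K) A L]
    (has : ∀ m : L, IsIntegral A m → ∃ θ : L, θ ^ 2 + θ = m)
    (htr : ∀ M : IntermediateField K L, FiniteDimensional K M →
      ∃ x : M, IsIntegral A (x : L) ∧ Algebra.trace K M x = 1) :
    ASMod Gal(L/K) (integralClosure A L) := by
  have h2 : (2 : L) = 0 := omi_two (K := K)
  refine ⟨Subtype.ext h2, one_ne_zero, ?_, ?_, ?_, ?_⟩
  · intro x
    exact ⟨MulAction.stabilizer Gal(L/K) (x : L),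
      stabilizer_isOpen_of_isIntegral (K := K) (x : L), fun g hg => Subtype.ext hg⟩
  · intro U hU hn
    obtain ⟨hfin, htr'⟩ := omi_trace U hU hn
    obtain ⟨x, hx1, hx2⟩ := htr (fixedField U) hfin
    refine ⟨⟨(x : L), hx1⟩, ?_, ?_⟩
    · intro g hg
      exact Subtype.ext (x.2 ⟨g, hg⟩)
    · apply Subtype.ext
      have h3 := htr' x
      rw [hx2, map_one] at h3
      refine Eq.trans ?_ h3
      have hf : Finite (Gal(L/K) ⧸ U) := Subgroup.quotient_finite_of_isOpen U hU
      have := Fintype.ofFinite (Gal(L/K) ⧸ U)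
      rw [finsum_eq_sum_of_fintype, finsum_eq_sum_of_fintype]
      exact map_sum (integralClosure A L).val _ _
  · intro m
    obtain ⟨θ, hθ⟩ := has m m.2
    have h3 : IsIntegral A θ := omi_int θ (by rw [hθ]; exact m.2)
    exact ⟨⟨θ, h3⟩, Subtype.ext hθ⟩
  · intro x hx
    have h : x * (x + 1) = 0 := by linear_combination hx
    rcases mul_eq_zero.1 h with h | h
    · exact Or.inl h
    · refine Or.inr ?_
      have h22 : (2 : integralClosure A L) = 0 := Subtype.ext h2
      linear_combination h - h22

private theorem omi_abs (h1 : S_Ah) (h3 : S_Has) {A K L : Type} [CommRing A] [Field K] [Field L]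
    [Algebra A K] [Algebra K L] [Algebra A L] [IsScalarTower A K L] [CharP K 2] [IsGalois K L]
    [IsFractionRing A K] [IsIntegrallyClosed A]
    (has : ∀ m : L, IsIntegral A m → ∃ θ : L, θ ^ 2 + θ = m)
    (htr : ∀ M : IntermediateField K L, FiniteDimensional K M →
      ∃ x : M, IsIntegral A (x : L) ∧ Algebra.trace K M x = 1) :
    H2Z Gal(L/K) ∧ ∀ h : Gal(L/K) → ZMod 2, Hom2 h → ∃ f : A, h = hAS K L (algebraMap A K f) := by
  have h2 : (2 : L) = 0 := omi_two (K := K)
  haveI : SMulCommClass Gal(L/K) A L := omi_comm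
  obtain ⟨hH2, hhom⟩ := h1 Gal(L/K) (integralClosure A L) (omi_asMod has htr)
  refine ⟨hH2, ?_⟩
  intro h hh
  obtain ⟨θ, hθ⟩ := hhom h hh
  have hθ' : ∀ g : Gal(L/K), g (θ : L) = (θ : L) + o2 L (h g) := by
    intro g
    have h4 := congrArg (fun z : integralClosure A L => (z : L)) (hθ g)
    have h5 : ((o2 (integralClosure A L) (h g) : integralClosure A L) : L) = o2 L (h g) := by
      unfold o2
      split_ifs <;> rfl
    rw [← h5]
    exact h4
  have hfix : ∀ g : Gal(L/K), g ((θ : L) ^ 2 + θ) = (θ : L) ^ 2 + θ := by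
    intro g
    rw [map_add, map_pow, hθ' g]
    have hc : (o2 L (h g)) ^ 2 + o2 L (h g) = 0 := by
      unfold o2
      split_ifs
      · ring
      · linear_combination h2
    linear_combination hc + (θ : L) * o2 L (h g) * h2
  obtain ⟨f, hf⟩ := (InfiniteGalois.mem_range_algebraMap_iff_fixed (k := K) ((θ : L) ^ 2 + θ)).2 hfix
  have hi : IsIntegral A f := by
    rw [← isIntegral_algebraMap_iff (algebraMap K L).injective, hf]
    exact (θ ^ 2 + θ).2
  obtain ⟨a, ha⟩ := IsIntegrallyClosed.isIntegral_iff.1 hi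
  refine ⟨a, ?_⟩
  funext g
  have h4 := (h3 K L).2.1 f θ hf.symm g
  rw [hθ' g] at h4
  rw [ha]
  exact omi_o2_inj (add_left_cancel h4)

/-- **Omi.** The Galois group of the maximal unramified tower. -/
theorem tOmi (h1 : S_Ah) (h2 : S_Has) (h3 : S_Twb) (h4 : S_Twt) : S_Omi := by
  intro A K Ks _ _ _ _ _ _ _ _ _ _ _ _
  obtain ⟨b1, b2, b3, b4, b5, b6⟩ := h3 A K Ks
  have hc : (2 : Ks) = 0 := omi_two (K := K)
  have has : ∀ m : Om A K Ks, IsIntegral A m → ∃ θ : Om A K Ks, θ ^ 2 + θ = m := by
    intro m hm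
    obtain ⟨θ, hθ⟩ := omi_as hc (m : Ks)
    have h5 : θ ∈ Om A K Ks := by
      apply b6
      · rw [hθ]
        exact m.2
      · rw [hθ]
        exact hm.map ((Om A K Ks).val.restrictScalars A)
    exact ⟨⟨θ, h5⟩, Subtype.ext hθ⟩
  have htr : ∀ M : IntermediateField K (Om A K Ks), FiniteDimensional K M →
      ∃ x : M, IsIntegral A (x : Om A K Ks) ∧ Algebra.trace K M x = 1 := by
    intro M hM
    have hsep : Algebra.IsSeparable K M :=
      Algebra.isSeparable_tower_bot_of_isSeparable K M (Om A K Ks)
    obtain ⟨α, hα⟩ := Field.exists_primitive_element K M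
    obtain ⟨T, hT, hαT⟩ := (b2 ((α : Om A K Ks) : Ks)).1 (α : Om A K Ks).2
    let φ : M →ₐ[K] Ks := (Om A K Ks).val.comp M.val
    have hφ : ∀ z, φ z ∈ T := by
      intro z
      have h5 : z ∈ K⟮α⟯ := by
        rw [hα]
        exact mem_top
      have h6 : φ z ∈ K⟮α⟯.map φ := ⟨z, h5, rfl⟩
      rw [adjoin_map, Set.image_singleton] at h6
      exact (adjoin_simple_le_iff.2 hαT) h6
    let j : M →ₐ[K] T :=
      { toFun := fun z => ⟨φ z, hφ z⟩
        map_one' := Subtype.ext (map_one φ)
        map_mul' := fun a b => Subtype.ext (map_mul φ a b)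
        map_zero' := Subtype.ext (map_zero φ)
        map_add' := fun a b => Subtype.ext (map_add φ a b)
        commutes' := fun c => Subtype.ext (φ.commutes c) }
    obtain ⟨y, hy1, hy2⟩ := h4 A K Ks T hT
    haveI : FiniteDimensional K T := b3 T hT
    have hy3 : IsIntegral A y := by
      rw [← isIntegral_algHom_iff (T.val.restrictScalars A) T.val.injective]
      exact hy1
    obtain ⟨x, hx1, hx2⟩ := omi_tr j y hy3 hy2
    exact ⟨x, hx1.map (M.val.restrictScalars A), hx2⟩
  obtain ⟨c1, c2⟩ := omi_abs h1 h2 has htr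
  refine ⟨c1, c2, ?_⟩
  intro f
  apply has
  have h5 : algebraMap K (Om A K Ks) (algebraMap A K f) = algebraMap A (Om A K Ks) f :=
    (IsScalarTower.algebraMap_apply A K (Om A K Ks) f).symm
  rw [h5]
  exact isIntegral_algebraMap

end Pool.Agent.MP72W
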