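import Pool.Agent.Lib.MP_72e2e6_nt.W2.B.Spec

/-!
# MP_72e2e6_nt, theorem T3, B/Sep: the absolute Galois group in characteristic two (helper82)
-/

namespace Pool.Agent.MP72W

open IntermediateField

private theorem sep_two {K L : Type} [Field K] [Field L] [Algebra K L] [CharP K 2] :
    (2 : L) = 0 := by
  have h : (2 : K) = 0 := CharP.cast_eq_zero K 2
  have h' : algebraMap K L 2 = algebraMap K L 0 := by rw [h]
  rw [map_zero, map_ofNat] at h'
  exact h'

/-- The fixed field of an open normal subgroup is a finite Galois extension, and the trace is the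
sum of the conjugates. -/
theorem Sep_trace {K L : Type} [Field K] [Field L] [Algebra K L] [IsGalois K L]
    (U : Subgroup Gal(L/K)) (hU : IsOpen (U : Set Gal(L/K))) (hn : U.Normal) :
    FiniteDimensional K (fixedField U) ∧ IsGalois K (fixedField U) ∧
    ∀ x : fixedField U, ∑ᶠ q : Gal(L/K) ⧸ U, (Quotient.out q) • (x : L) =
      algebraMap K L (Algebra.trace K (fixedField U) x) := by
  let H : ClosedSubgroup Gal(L/K) := ⟨U, U.isClosed_of_isOpen hU⟩
  have hH : (fixedField U).fixingSubgroup = U := InfiniteGalois.fixingSubgroup_fixedField H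
  have hfin : FiniteDimensional K (fixedField U) := by
    refine (InfiniteGalois.isOpen_iff_finite (fixedField U)).1 ?_
    have : ((fixedField U).fixingSubgroup.carrier : Set Gal(L/K)) = (U : Set Gal(L/K)) := by
      rw [hH]
      rfl
    rw [this]
    exact hU
  have hgal : IsGalois K (fixedField U) := inferInstance
  refine ⟨hfin, hgal, fun x => ?_⟩
  have hHn : H.Normal := hn
  let e : Gal(L/K) ⧸ H.1 ≃* Gal(fixedField H.1/K) := InfiniteGalois.normalAutEquivQuotient H
  have h1 : ∑ᶠ q : Gal(L/K) ⧸ U, (Quotient.out q) • (x : L) =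
      ∑ᶠ σ : Gal(fixedField U/K), ((σ x : fixedField U) : L) := by
    refine finsum_eq_of_bijective (e : Gal(L/K) ⧸ U → Gal(fixedField U/K)) e.bijective ?_
    intro q
    have h2 : e q = AlgEquiv.restrictNormalHom (fixedField U) (Quotient.out q) := by
      conv_lhs => rw [← QuotientGroup.out_eq' q]
      rfl
    have h3 : ((e q) x : L) = (Quotient.out q) (x : L) := by
      rw [h2]
      exact AlgEquiv.restrictNormalHom_apply (fixedField U) (Quotient.out q) x
    exact h3.symm
  rw [h1, finsum_eq_sum_of_fintype]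
  have h4 := trace_eq_sum_automorphisms (K := K) (L := fixedField U) x
  have h5 : algebraMap K L (Algebra.trace K (fixedField U) x) =
      ((algebraMap K (fixedField U) (Algebra.trace K (fixedField U) x) : fixedField U) : L) := rfl
  rw [h5, h4]
  exact (map_sum (fixedField U).val _ _).symm

/-- A separably closed field of characteristic two is closed under Artin-Schreier roots. -/
private theorem sep_as {L : Type} [Field L] [IsSepClosed L] (h2 : (2 : L) = 0) (m : L) :
    ∃ θ : L, θ ^ 2 + θ = m := by
  obtain ⟨x, hx⟩ := IsSepClosed.exists_root_C_mul_X_pow_add_C_mul_X_add_C (n := 2) (1 : L) 1 m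
    (by exact_mod_cast h2) le_rfl one_ne_zero
  refine ⟨x, ?_⟩
  linear_combination hx - m * h2

private theorem sep_o2_inj {L : Type} [Field L] {a b : ZMod 2} (h : o2 L a = o2 L b) : a = b := by
  have key : ∀ x : ZMod 2, x = 0 ∨ x = 1 := by decide
  have h0 : o2 L 0 = 0 := if_pos rfl
  have h1 : o2 L 1 = 1 := if_neg (by decide)
  rcases key a with ha | ha <;> rcases key b with hb | hb <;> subst ha <;> subst hb
  · rfl
  · rw [h0, h1] at h
    exact absurd h zero_ne_one
  · rw [h0, h1] at h
    exact absurd h.symm zero_ne_one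
  · rfl

private theorem sep_asMod (k : Type) [Field k] [CharP k 2] :
    ASMod Gal(SeparableClosure k/k) (SeparableClosure k) := by
  have h2 : (2 : SeparableClosure k) = 0 := sep_two (K := k)
  refine ⟨h2, one_ne_zero, ?_, ?_, fun m => sep_as h2 m, ?_⟩
  · intro x
    exact ⟨MulAction.stabilizer Gal(SeparableClosure k/k) x,
      stabilizer_isOpen_of_isIntegral (K := k) x, fun g hg => hg⟩
  · intro U hU hn
    obtain ⟨hfin, hgal, htr⟩ := Sep_trace U hU hn
    obtain ⟨x, hx⟩ := Algebra.trace_surjective k (fixedField U) 1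
    refine ⟨x, ?_, ?_⟩
    · intro g hg
      exact x.2 ⟨g, hg⟩
    · rw [htr x, hx, map_one]
  · intro x hx
    have h : x * (x + 1) = 0 := by linear_combination hx
    rcases mul_eq_zero.1 h with h | h
    · exact Or.inl h
    · refine Or.inr ?_
      linear_combination h - h2

/-- **Sep.** The absolute Galois group of a field of characteristic two. -/
theorem tSep (h1 : S_Ah) (h3 : S_Has) : S_Sep := by
  intro k _ _
  have h2 : (2 : SeparableClosure k) = 0 := sep_two (K := k)
  obtain ⟨hH2, hhom⟩ := h1 Gal(SeparableClosure k/k) (SeparableClosure k) (sep_asMod k)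
  refine ⟨hH2, fun f => sep_as h2 f, ?_⟩
  intro h hh
  obtain ⟨θ, hθ⟩ := hhom h hh
  have hθ' : ∀ g : Gal(SeparableClosure k/k), g θ = θ + o2 (SeparableClosure k) (h g) := hθ
  have hfix : ∀ g : Gal(SeparableClosure k/k), g (θ ^ 2 + θ) = θ ^ 2 + θ := by
    intro g
    rw [map_add, map_pow, hθ' g]
    have hc : (o2 (SeparableClosure k) (h g)) ^ 2 + o2 (SeparableClosure k) (h g) = 0 := by
      unfold o2
      split_ifs
      · ring
      · linear_combination h2
    linear_combination hc + θ * o2 (SeparableClosure k) (h g) * h2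
  obtain ⟨f, hf⟩ := (InfiniteGalois.mem_range_algebraMap_iff_fixed (k := k) (θ ^ 2 + θ)).2 hfix
  refine ⟨f, ?_⟩
  funext g
  have h4 := (h3 k (SeparableClosure k)).2.1 f θ hf.symm g
  rw [hθ' g] at h4
  exact sep_o2_inj (add_left_cancel h4)

end Pool.Agent.MP72W
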