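import Pool.Agent.Lib.MP_72e2e6_nt.W2.B.Spec

/-!
# MP_72e2e6_nt, T3, W2/B/Twb: towers of Artin-Schreier extensions (helper77)
-/

namespace Pool.Agent.MP72W

open IntermediateField

section

variable {A K Ks : Type} [CommRing A] [Field K] [Field Ks] [Algebra K Ks] [Algebra A Ks]

private theorem twb_sup {M M' : IntermediateField K Ks} (hM : Twr A K Ks M)
    (hM' : Twr A K Ks M') : Twr A K Ks (M ⊔ M') := by
  induction hM' with
  | bot =>
    rw [sup_bot_eq]
    exact hM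
  | step M'' θ h h1 h2 ih =>
    rw [← sup_assoc]
    exact Twr.step _ θ ih h1 ((le_sup_right : M'' ≤ M ⊔ M'') h2)

private theorem twb_mem (x : Ks) : x ∈ Om A K Ks ↔ ∃ M, Twr A K Ks M ∧ x ∈ M := by
  constructor
  · intro hx
    have hne : Nonempty {M : IntermediateField K Ks | Twr A K Ks M} := ⟨⟨⊥, Twr.bot⟩⟩
    have hdir : Directed (· ≤ ·) (fun M : {M : IntermediateField K Ks | Twr A K Ks M} =>
        (M : IntermediateField K Ks)) := by
      rintro ⟨M, hM⟩ ⟨M', hM'⟩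
      exact ⟨⟨M ⊔ M', twb_sup hM hM'⟩, le_sup_left, le_sup_right⟩
    have h1 : (Om A K Ks : Set Ks) = ⋃ M : {M : IntermediateField K Ks | Twr A K Ks M},
        ((M : IntermediateField K Ks) : Set Ks) := by
      unfold Om
      rw [sSup_eq_iSup']
      exact coe_iSup_of_directed hdir
    have h2 : x ∈ (Om A K Ks : Set Ks) := hx
    rw [h1, Set.mem_iUnion] at h2
    obtain ⟨⟨M, hM⟩, h3⟩ := h2
    exact ⟨M, hM, h3⟩
  · rintro ⟨M, hM, hx⟩
    exact (le_sSup hM : M ≤ Om A K Ks) hx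

end

theorem tTwb : S_Twb := by
  intro A K Ks _ _ _ _ _ _ _ _ _ _
  have h4 : ∀ M (σ : Gal(Ks/K)), Twr A K Ks M → Twr A K Ks (M.map (σ : Ks →ₐ[K] Ks)) := by
    intro M σ hM
    induction hM with
    | bot =>
      rw [IntermediateField.map_bot]
      exact Twr.bot
    | step M'' θ h h1 h2 ih =>
      rw [IntermediateField.map_sup, IntermediateField.adjoin_map, Set.image_singleton]
      have h5 : (σ : Ks →ₐ[K] Ks) θ ^ 2 + (σ : Ks →ₐ[K] Ks) θ =
          (σ : Ks →ₐ[K] Ks) (θ ^ 2 + θ) := by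
        rw [map_add, map_pow]
      refine Twr.step _ _ ih ?_ ?_
      · rw [h5]
        exact h1.map ((σ : Ks →ₐ[K] Ks).restrictScalars A)
      · rw [h5]
        exact ⟨_, h2, rfl⟩
  refine ⟨fun M M' hM hM' => twb_sup hM hM', twb_mem, ?_, h4, ?_, ?_⟩
  · intro M hM
    induction hM with
    | bot => infer_instance
    | step M'' θ h h1 h2 ih =>
      have h3 : FiniteDimensional K K⟮θ⟯ :=
        IntermediateField.adjoin.finiteDimensional (Algebra.IsIntegral.isIntegral θ)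
      exact IntermediateField.finiteDimensional_sup M'' K⟮θ⟯
  · have hn : Normal K (Om A K Ks) := by
      rw [normal_iff_forall_map_le']
      rintro σ _ ⟨x, hx, rfl⟩
      obtain ⟨M, hM, hx'⟩ := (twb_mem x).1 hx
      exact (twb_mem _).2 ⟨_, h4 M σ hM, ⟨x, hx', rfl⟩⟩
    have hs : Algebra.IsSeparable K (Om A K Ks) :=
      Algebra.isSeparable_tower_bot_of_isSeparable K (Om A K Ks) Ks
    exact ⟨⟩
  · intro θ hθ hi
    obtain ⟨M, hM, hx⟩ := (twb_mem _).1 hθ
    exact (twb_mem θ).2 ⟨M ⊔ K⟮θ⟯, Twr.step M θ hM hi hx,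
      (le_sup_right : K⟮θ⟯ ≤ M ⊔ K⟮θ⟯) (mem_adjoin_simple_self K θ)⟩

end Pool.Agent.MP72W
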