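import Pool.Agent.Lib.MP_72e2e6_nt.W2.B.Defs

/-!
# MP_72e2e6_nt, theorem T3, part B: Artin-Schreier towers and `H² = 0`

The proofs are complete in the docstrings; every module is independent (used statements are
hypotheses): file `W2/B/<Name>.lean` (import this file only) with `theorem t<Name> : S_<Name>` or
`theorem t<Name> (h1 : S_X) (h2 : S_Y) .. : S_<Name>` (in the order of the docstring), namespace
`Pool.Agent.MP72W`, other declarations `private`. All types are in `Type`.
-/

namespace Pool.Agent.MP72W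

open IntermediateField

/-- **Uc** (80 lines). Locally constant functions on compact groups are invariant under an open
normal subgroup.

Proof. First one variable: for every `g` there is an open neighbourhood `V_g` of `1` with
`f (g v) = f g` for `v ∈ V_g`, and an open neighbourhood `V'_g` of `1` with `V'_g * V'_g ⊆ V_g`. Finitely
many `g_i V'_{g_i}` cover `G`; let `V` be the intersection of these `V'_{g_i}`. Then `f (g v) = f g` for all
`g ∈ G`, `v ∈ V` (`g = g_i v'`, so `f g = f g_i = f (g_i v' v)`). The set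
`H = {u | ∀ g, f (g u) = f g}` is a subgroup containing `V`, so it is open; in a compact group an open
subgroup has finite index, so its normal core is open (a finite intersection of conjugates:
`Subgroup.normalCore`, `Subgroup.isOpen_of..`, or use `exists_openNormalSubgroup_..` if available:
`ProfiniteGrp`, `OpenNormalSubgroup`). Two variables: apply this to the compact group `G × G`
(`f (g, h) = c g h`), get an open normal subgroup `N` of `G × G` and let
`U = {u | (u, 1) ∈ N} ⊓ {u | (1, u) ∈ N}`, open and normal. -/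
def S_Uc : Prop :=
  (∀ (G : Type) [Group G] [TopologicalSpace G] [IsTopologicalGroup G] [CompactSpace G] (A : Type)
    (f : G → A), IsLocallyConstant f →
    ∃ U : Subgroup G, IsOpen (U : Set G) ∧ U.Normal ∧ ∀ g, ∀ u ∈ U, f (g * u) = f g) ∧
  ∀ (G : Type) [Group G] [TopologicalSpace G] [IsTopologicalGroup G] [CompactSpace G] (A : Type)
    (c : G → G → A), IsLocallyConstant (fun p : G × G => c p.1 p.2) →
    ∃ U : Subgroup G, IsOpen (U : Set G) ∧ U.Normal ∧
      ∀ g h, ∀ u ∈ U, ∀ v ∈ U, c (g * u) (h * v) = c g h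

/-- **Ah** (200 lines, uses `S_Uc`). `H²(G, ZMod 2) = 0` and the description of the homomorphisms.

Proof. In `O` we have `2 = 0`; `c g h` is identified with `o2 O (c g h) ∈ {0, 1}`, fixed by `G`.
(1) Let `c` be a cocycle, `U` as in `S_Uc` for `c`, `x ∈ O` as in `ASMod.tr` for `U`; `G ⧸ U` is finite.
For `q ∈ G ⧸ U` and a function on `G` which is right invariant under `U` we may evaluate at any
representative of `q`; `g ↦ g • x` is right invariant. Put
`a γ = ∑_q c γ q * (γ q) • x` (`γ q` the product of `γ` with a representative). `a` is right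
invariant under `U`: `c (γ u) q = c γ q` and `(γ u q) • x = (γ q u') • x = (γ q) • x` (`U` is normal).
Then `γ • a δ = ∑_q c δ q * (γ δ q) • x`, `a (γ δ) = ∑_q c (γ δ) q * (γ δ q) • x` and, substituting
`q ↦ δ q`, `a γ = ∑_q c γ (δ q) * (γ δ q) • x`. By the cocycle identity the sum of the three is
`∑_q c γ δ * (γ δ q) • x = c γ δ * (γ δ) • (∑_q q • x)`, hence (`∑_q q • x = 1`)
`γ • a δ + a (γ δ) + a γ = c γ δ`. (*)
Put `p γ = (a γ)^2 + a γ`. Squaring (*) and adding: `γ • p δ + p (γ δ) + p γ = 0`. Let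
`m = ∑_q p q * q • x`. Then `γ • m = ∑_q (γ • p q) * (γ q) • x = ∑_q (p (γ q) + p γ) * (γ q) • x = m + p γ`.
Let `θ ∈ O` with `θ ^ 2 + θ = m` and `b γ = a γ + γ • θ + θ`. Then `(b γ)^2 + b γ = p γ + γ • m + m = 0`, so
`b γ ∈ {0, 1}` (`ASMod.dom`); `b` is locally constant (`a` is right invariant under `U`, and
`γ ↦ γ • θ` is locally constant by `ASMod.stab`), and from (*) `b γ + b δ + b (γ δ) = c γ δ`
(`γ • b δ = b δ`). As `0 ≠ 1` in `O` this is an identity in `ZMod 2`.
(2) Let `h` be a `Hom2`, `U` an open normal subgroup such that `h` is right invariant, `x` as above.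
`θ = ∑_q h q * q • x`: `γ • θ = ∑_q h q * (γ q) • x = ∑_q (h (γ q) + h γ) * (γ q) • x = θ + h γ`. -/
def S_Ah : Prop :=
  ∀ (G : Type) [Group G] [TopologicalSpace G] [IsTopologicalGroup G] [CompactSpace G] (O : Type)
    [CommRing O] [MulSemiringAction G O], ASMod G O →
    H2Z G ∧ ∀ h : G → ZMod 2, Hom2 h → ∃ θ : O, ∀ g, g • θ = θ + o2 O (h g)

/-- **Has** (120 lines). Properties of the Artin-Schreier homomorphism.

Proof. Let `θ₀ = asr f`, a root of `θ ^ 2 + θ = f` by hypothesis. The roots are `θ₀` and `θ₀ + 1`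
(`(θ - θ₀)^2 + (θ - θ₀) = 0`). `g θ₀` is a root, so `g θ₀ = θ₀ + o2 (hAS f g)`; the same for `θ₀ + 1`:
(2). (1): `g h θ₀ = g (θ₀ + o2 (..)) = θ₀ + o2 (hAS f g) + o2 (hAS f h)`; locally constant since the
stabilizer of `θ₀` is open (Krull topology, `θ₀` is algebraic;
`IntermediateField.fixingSubgroup_isOpen`). (3): `θ₀ + θ₀'` is a root for `f + f'`; use (2). (4): all
`g` fix `θ₀` iff `θ₀ ∈ K` (`L / K` Galois: `IsGalois.mem_bot_iff_fixed`, for infinite extensions
`InfiniteGalois.mem_bot_iff_fixed` or `IsGalois.tfae`); if `x ∈ K` is a root it is `θ₀` or `θ₀ + 1`. -/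
def S_Has : Prop :=
  ∀ (K L : Type) [Field K] [Field L] [Algebra K L] [CharP K 2] [IsGalois K L],
    (∀ f : K, (∃ θ : L, θ ^ 2 + θ = algebraMap K L f) → Hom2 (hAS K L f)) ∧
    (∀ f : K, ∀ θ : L, θ ^ 2 + θ = algebraMap K L f → ∀ g : Gal(L/K),
      g θ = θ + o2 L (hAS K L f g)) ∧
    (∀ f f' : K, (∃ θ : L, θ ^ 2 + θ = algebraMap K L f) →
      (∃ θ : L, θ ^ 2 + θ = algebraMap K L f') → ∀ g : Gal(L/K),
      hAS K L (f + f') g = hAS K L f g + hAS K L f' g) ∧
    (∀ f : K, (∃ θ : L, θ ^ 2 + θ = algebraMap K L f) →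
      ((∀ g, hAS K L f g = 0) ↔ ∃ x : K, x ^ 2 + x = f))

/-- **Sep** (120 lines, uses `S_Ah`, `S_Has`). The absolute Galois group of a field of
characteristic two.

Proof. `O = k^s = SeparableClosure k` with `G = Gal(k^s/k)` is an `ASMod`: `stab`: stabilizers are open
(Krull topology); `as`: `X ^ 2 + X - m` is separable (derivative `1`) and `k^s` is separably closed
(`IsSepClosed.exists_root`); `dom`: field; `tr`: let `M` be the fixed field of `U` (`U` is open and
normal, so `M / k` is finite Galois with group `G ⧸ U`), take `x ∈ M` with trace `1`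
(`Algebra.trace_surjective`, `M / k` is separable) and use that the trace is the sum of the
conjugates (`trace_eq_sum_automorphisms`); the restriction map `G → Gal(M/k)` is surjective with
kernel `U`. So `S_Ah` applies; for a `Hom2` `h` it gives `θ ∈ k^s` with `g θ = θ + o2 (h g)`; then
`θ ^ 2 + θ` is fixed by `G`, so it is some `f ∈ k`, and `h = hAS f` by `S_Has` (2). -/
def S_Sep : Prop :=
  ∀ (k : Type) [Field k] [CharP k 2],
    H2Z Gal(SeparableClosure k/k) ∧
    (∀ f : SeparableClosure k, ∃ θ : SeparableClosure k, θ ^ 2 + θ = f) ∧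
    ∀ h : Gal(SeparableClosure k/k) → ZMod 2, Hom2 h →
      ∃ f : k, h = hAS k (SeparableClosure k) f

/-- **Twb** (150 lines). Towers. Here and below `Ks / K` is separable and separably closed, `K` has
characteristic two.

Proof. (1) By induction on the tower `M'`: `M ⊔ (M'' ⊔ K⟮θ⟯) = (M ⊔ M'') ⊔ K⟮θ⟯`. (2) By (1) the set of
the towers is directed (`IntermediateField.mem_sSup_of_directedOn` or similar, or show that the
union is an intermediate field). (3) Induction: `M ⊔ K⟮θ⟯` is finite over `K` (`θ` is algebraic).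
(4) `(M ⊔ K⟮θ⟯).map σ = M.map σ ⊔ K⟮σ θ⟯` and `(σ θ)^2 + σ θ = σ (θ ^ 2 + θ)` is integral over `A` (`σ` is
also an `A`-homomorphism by the scalar tower). (5) By (4) and (2) `Om` is stable under all `σ`, so it is
normal over `K` (`IntermediateField.normal_iff_forall_map_le`), and separable. (6) `θ ^ 2 + θ` lies in a
tower `M` by (2), so `θ ∈ M ⊔ K⟮θ⟯`. -/
def S_Twb : Prop :=
  ∀ (A K Ks : Type) [CommRing A] [Field K] [Algebra A K] [Field Ks] [Algebra K Ks] [Algebra A Ks]
    [IsScalarTower A K Ks] [CharP K 2] [IsGalois K Ks] [IsSepClosed Ks],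
    (∀ M M', Twr A K Ks M → Twr A K Ks M' → Twr A K Ks (M ⊔ M')) ∧
    (∀ x, x ∈ Om A K Ks ↔ ∃ M, Twr A K Ks M ∧ x ∈ M) ∧
    (∀ M, Twr A K Ks M → FiniteDimensional K M) ∧
    (∀ M (σ : Gal(Ks/K)), Twr A K Ks M → Twr A K Ks (M.map (σ : Ks →ₐ[K] Ks))) ∧
    IsGalois K (Om A K Ks) ∧
    ∀ θ : Ks, θ ^ 2 + θ ∈ Om A K Ks → IsIntegral A (θ ^ 2 + θ) → θ ∈ Om A K Ks

/-- **Twt** (120 lines, uses `S_Twb`). Integral elements of trace one in towers.

Proof by induction. `⊥`: `x = 1` (`finrank K ⊥ = 1`). Step `M' = M ⊔ K⟮θ⟯`: if `θ ∈ M` then `M' = M`.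
Otherwise `X ^ 2 + X - (θ ^ 2 + θ)` is the minimal polynomial of `θ` over `M` (monic of degree `2` with the
root `θ ∉ M`), `M'` is `M(θ)` of degree `2` over `M` and the trace of `θ` from `M'` to `M` is `- 1 = 1`. If
`x ∈ M` is integral with trace `1` over `K`, then `x θ` is integral (`θ` is integral over `A` since
`θ ^ 2 + θ` is) and `tr_{M'/K}(x θ) = tr_{M/K}(tr_{M'/M}(x θ)) = tr_{M/K}(x) = 1` (`Algebra.trace_trace`).
(View `M` as a subfield of `M'` by `IntermediateField.inclusion` and its algebra structure.) -/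
def S_Twt : Prop :=
  ∀ (A K Ks : Type) [CommRing A] [Field K] [Algebra A K] [Field Ks] [Algebra K Ks] [Algebra A Ks]
    [IsScalarTower A K Ks] [CharP K 2] [IsGalois K Ks] [IsSepClosed Ks],
    ∀ M, Twr A K Ks M → ∃ x : M, IsIntegral A (x : Ks) ∧ Algebra.trace K M x = 1

/-- **Omi** (200 lines, uses `S_Ah`, `S_Has`, `S_Twb`, `S_Twt`). The Galois group of `Om`.

Proof. Let `O` be the integral closure of `A` in `Om`, a subring of the field `Om`, stable under
`G = Gal(Om/K)` (compact). It is an `ASMod`: `two`, `one`, `dom` are clear (subring of a field of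
characteristic `2`), `stab`: Krull topology. `as`: for `m ∈ O` let `θ ∈ Ks` be a root of `θ ^ 2 + θ = m`
(separable polynomial); `θ ∈ Om` by `S_Twb` (6) and integral. `tr`: let `U` be an open normal subgroup,
`M_U` its fixed field, finite Galois over `K` with group `G ⧸ U`, with `M_U ≤ M` for a tower `M` (`S_Twb`
(1), (2), finitely many generators). Let `y ∈ M` be as in `S_Twt` and `x = tr_{M/M_U}(y)`, integral over
`A` (`Algebra.isIntegral_trace`), `tr_{M_U/K}(x) = 1`, and this trace is
`∑_{q ∈ G ⧸ U} q x` (`trace_eq_sum_automorphisms`). So `S_Ah` gives (1), and for a `Hom2` `h` it gives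
`θ ∈ O` with `g θ = θ + o2 (h g)`; `θ ^ 2 + θ` is fixed by `G`, so in `K`, and integral over `A`, so in `A`
(`IsIntegrallyClosed`), say `f`, and `h = hAS f` by `S_Has` (2). (3): a root of `θ ^ 2 + θ = f`, `f ∈ A`, in
`Ks` lies in `Om` by `S_Twb` (6). -/
def S_Omi : Prop :=
  ∀ (A K Ks : Type) [CommRing A] [Field K] [Algebra A K] [IsFractionRing A K]
    [IsIntegrallyClosed A] [Field Ks] [Algebra K Ks] [Algebra A Ks]
    [IsScalarTower A K Ks] [CharP K 2] [IsGalois K Ks] [IsSepClosed Ks],
    H2Z Gal((Om A K Ks)/K) ∧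
    (∀ h : Gal((Om A K Ks)/K) → ZMod 2, Hom2 h →
      ∃ f : A, h = hAS K (Om A K Ks) (algebraMap A K f)) ∧
    ∀ f : A, ∃ θ : Om A K Ks, θ ^ 2 + θ = algebraMap K (Om A K Ks) (algebraMap A K f)

end Pool.Agent.MP72W
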