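import Pool.Agent.Lib.MP_72e2e6_nt.W2.A.Defs

/-!
# MP_72e2e6_nt, theorem T3, part B (Artin-Schreier towers and `H² = 0`): definitions
-/

namespace Pool.Agent.MP72W

open IntermediateField

/-- A ring `O` of characteristic two with a continuous action of `G`, with elements of trace one and
closed under Artin-Schreier roots. -/
structure ASMod (G O : Type*) [Group G] [TopologicalSpace G] [CommRing O] [MulSemiringAction G O] :
    Prop where
  two : (2 : O) = 0
  one : (1 : O) ≠ 0
  stab : ∀ x : O, ∃ U : Subgroup G, IsOpen (U : Set G) ∧ ∀ g ∈ U, g • x = x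
  tr : ∀ U : Subgroup G, IsOpen (U : Set G) → U.Normal →
    ∃ x : O, (∀ g ∈ U, g • x = x) ∧ ∑ᶠ q : G ⧸ U, (Quotient.out q) • x = 1
  as : ∀ m : O, ∃ θ : O, θ ^ 2 + θ = m
  dom : ∀ x : O, x ^ 2 + x = 0 → x = 0 ∨ x = 1

/-- The element `0` or `1` of a ring. -/
def o2 (L : Type*) [Zero L] [One L] (x : ZMod 2) : L := if x = 0 then 0 else 1

open Classical in
/-- A root of `θ ^ 2 + θ = f` (or `0` if there is none). -/
noncomputable def asr {L : Type*} [Field L] (f : L) : L :=
  if h : ∃ θ : L, θ ^ 2 + θ = f then h.choose else 0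

open Classical in
/-- The Artin-Schreier homomorphism of `f ∈ K`. -/
noncomputable def hAS (K L : Type*) [Field K] [Field L] [Algebra K L] (f : K) (g : Gal(L/K)) :
    ZMod 2 :=
  if g (asr (algebraMap K L f)) = asr (algebraMap K L f) then 0 else 1

/-- Towers of Artin-Schreier extensions by roots of `θ ^ 2 + θ = m`, `m` integral over `A`. -/
inductive Twr (A K Ks : Type*) [CommRing A] [Field K] [Field Ks] [Algebra K Ks] [Algebra A Ks] :
    IntermediateField K Ks → Prop
  | bot : Twr A K Ks ⊥
  | step (M : IntermediateField K Ks) (θ : Ks) : Twr A K Ks M → IsIntegral A (θ ^ 2 + θ) →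
      θ ^ 2 + θ ∈ M → Twr A K Ks (M ⊔ K⟮θ⟯)

/-- The union of the towers: the maximal `2`-extension which is unramified over `A`. -/
noncomputable def Om (A K Ks : Type*) [CommRing A] [Field K] [Field Ks] [Algebra K Ks]
    [Algebra A Ks] : IntermediateField K Ks := sSup {M | Twr A K Ks M}

end Pool.Agent.MP72W
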