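import Pool.Agent.Lib.MP_72e2e6_nt.W2.B.Spec

/-!
# MP_72e2e6_nt, theorem T3, B/Twt: integral elements of trace one in towers (helper82)
-/

namespace Pool.Agent.MP72W

open IntermediateField Polynomial

/-- The trace of a root of `X ^ 2 + X - m` which is not in the base field. -/
private theorem twt_trace {F L : Type} [Field F] [Field L] [Algebra F L] (h2 : (2 : F) = 0)
    (θ : L) (m : F) (hθ : θ ^ 2 + θ = algebraMap F L m) (hn : θ ∉ Set.range (algebraMap F L)) :
    IsIntegral F θ ∧ Algebra.trace F F⟮θ⟯ (AdjoinSimple.gen F θ) = 1 := by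
  let p : F[X] := X ^ 2 + X - C m
  have hdeg : p.natDegree = 2 := by
    have : p = C 1 * X ^ 2 + C 1 * X + C (-m) := by
      simp only [p, map_one, map_neg, one_mul]
      ring
    rw [this]
    exact natDegree_quadratic one_ne_zero
  have hmon : p.Monic := by
    have : p = C 1 * X ^ 2 + C 1 * X + C (-m) := by
      simp only [p, map_one, map_neg, one_mul]
      ring
    unfold Polynomial.Monic
    rw [this]
    exact leadingCoeff_quadratic one_ne_zero
  have hroot : aeval θ p = 0 := by
    simp only [p, map_sub, map_add, map_pow, aeval_X, aeval_C]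
    rw [hθ, sub_self]
  have hint : IsIntegral F θ := ⟨p, hmon, hroot⟩
  have hmin : minpoly F θ = p := by
    refine (eq_of_monic_of_dvd_of_natDegree_le (minpoly.monic hint) hmon
      (minpoly.dvd F θ hroot) ?_).symm
    rw [hdeg]
    have h1 : 0 < (minpoly F θ).natDegree := minpoly.natDegree_pos hint
    have h3 : (minpoly F θ).natDegree ≠ 1 := by
      intro h1
      refine hn (minpoly.mem_range_of_degree_eq_one F θ ?_)
      rw [degree_eq_natDegree (minpoly.ne_zero hint), h1]
      rfl
    omega
  refine ⟨hint, ?_⟩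
  have h4 := PowerBasis.trace_gen_eq_nextCoeff_minpoly (IntermediateField.adjoin.powerBasis hint)
  have h5 : (IntermediateField.adjoin.powerBasis hint).gen = AdjoinSimple.gen F θ := rfl
  rw [h5, IntermediateField.minpoly_gen, hmin] at h4
  rw [h4]
  have h6 : p.nextCoeff = 1 := by
    unfold nextCoeff
    rw [hdeg]
    simp [p, coeff_X_pow]
  rw [h6]
  linear_combination - h2

/-- The step of the induction. -/
private theorem twt_step {A K Ks : Type} [CommRing A] [Field K] [Algebra A K] [Field Ks]
    [Algebra K Ks] [Algebra A Ks] [IsScalarTower A K Ks] (h2 : (2 : K) = 0)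
    (M : IntermediateField K Ks) (θ : Ks) [FiniteDimensional K M]
    (hint : IsIntegral A (θ ^ 2 + θ)) (hmem : θ ^ 2 + θ ∈ M) (hn : θ ∉ M)
    (x : M) (hx : IsIntegral A (x : Ks)) (htr : Algebra.trace K M x = 1) :
    ∃ y : (M ⊔ K⟮θ⟯ : IntermediateField K Ks), IsIntegral A (y : Ks) ∧
      Algebra.trace K (M ⊔ K⟮θ⟯ : IntermediateField K Ks) y = 1 := by
  have h2M : (2 : M) = 0 := by
    have h' : algebraMap K M 2 = algebraMap K M 0 := by rw [h2]
    rw [map_zero, map_ofNat] at h'
    exact h'
  obtain ⟨hθ, htθ⟩ := twt_trace (F := M) (L := Ks) h2M θ ⟨θ ^ 2 + θ, hmem⟩ rfl (by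
    rintro ⟨y, hy⟩
    exact hn (hy ▸ y.2))
  have hA : Nontrivial A := (algebraMap A Ks).domain_nontrivial
  have hθA : IsIntegral A θ := by
    have hp : (X ^ 2 + X : A[X]) = C 1 * X ^ 2 + C 1 * X + C 0 := by
      simp
    have hdeg : (X ^ 2 + X : A[X]).natDegree = 2 := by
      rw [hp]
      exact natDegree_quadratic one_ne_zero
    have hmon : (X ^ 2 + X : A[X]).Monic := by
      unfold Polynomial.Monic
      rw [hp]
      exact leadingCoeff_quadratic one_ne_zero
    refine IsIntegral.of_aeval_monic hmon (by rw [hdeg]; norm_num) ?_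
    rw [map_add, map_pow, aeval_X]
    exact hint
  have hE : restrictScalars K (IntermediateField.adjoin M {θ}) = M ⊔ K⟮θ⟯ :=
    IntermediateField.restrictScalars_adjoin_eq_sup K M ({θ} : Set Ks)
  have hfin : FiniteDimensional M M⟮θ⟯ := IntermediateField.adjoin.finiteDimensional hθ
  let y : M⟮θ⟯ := x • AdjoinSimple.gen M θ
  have hy : Algebra.trace K M⟮θ⟯ y = 1 := by
    have hfree : Module.Free M M⟮θ⟯ := Module.Free.of_divisionRing M M⟮θ⟯
    have hfree' : Module.Free K M := Module.Free.of_divisionRing K M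
    rw [← Algebra.trace_trace (S := M)]
    show Algebra.trace K M (Algebra.trace M M⟮θ⟯ (x • AdjoinSimple.gen M θ)) = 1
    rw [map_smul, htθ, smul_eq_mul, mul_one, htr]
  rw [← hE]
  let e : M⟮θ⟯ ≃ₐ[K] (restrictScalars K (IntermediateField.adjoin M {θ})) :=
    { toFun := fun z => ⟨z.1, z.2⟩
      invFun := fun z => ⟨z.1, z.2⟩
      left_inv := fun _ => rfl
      right_inv := fun _ => rfl
      map_mul' := fun _ _ => rfl
      map_add' := fun _ _ => rfl
      commutes' := fun _ => rfl }
  refine ⟨e y, ?_, ?_⟩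
  · show IsIntegral A ((x : Ks) * θ)
    exact hx.mul hθA
  · rw [Algebra.trace_eq_of_algEquiv e y]
    exact hy

/-- **Twt.** Integral elements of trace one in towers. -/
theorem tTwt (h : S_Twb) : S_Twt := by
  intro A K Ks _ _ _ _ _ _ _ _ _ _ M hM
  have hfin := (h A K Ks).2.2.1
  have h2 : (2 : K) = 0 := CharP.cast_eq_zero K 2
  induction hM with
  | bot =>
    refine ⟨1, ?_, ?_⟩
    · exact isIntegral_one
    · have h1 : (1 : (⊥ : IntermediateField K Ks)) =
          algebraMap K (⊥ : IntermediateField K Ks) 1 := (map_one _).symm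
      rw [h1, Algebra.trace_algebraMap, IntermediateField.finrank_bot, one_smul]
  | step M θ hM hint hmem ih =>
    by_cases hn : θ ∈ M
    · have hE : M ⊔ K⟮θ⟯ = M := sup_eq_left.2 (adjoin_simple_le_iff.2 hn)
      rw [hE]
      exact ih
    · obtain ⟨x, hx, htr⟩ := ih
      have := hfin M hM
      exact twt_step h2 M θ hint hmem hn x hx htr

end Pool.Agent.MP72W
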